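import Pool.Agent.Lib.MP_b9e19b_mp.Small.Final
import Pool.Agent.Lib.MP_b9e19b_mp.Small.P.RootsSq
import Pool.Agent.Lib.MP_b9e19b_mp.Small.P.RootSums
import Pool.Agent.Lib.MP_b9e19b_mp.Small.P.Tr4
import Pool.Agent.Lib.MP_b9e19b_mp.Small.P.PencilPos
import Pool.Agent.Lib.MP_b9e19b_mp.Small.P.TrA2
import Pool.Agent.Lib.MP_b9e19b_mp.Small.P.Symm
import Pool.Agent.Lib.MP_b9e19b_mp.Small.P.Conv
import Pool.Agent.Lib.MP_b9e19b_mp.Small.P.Split
import Pool.Agent.Lib.MP_b9e19b_mp.Small.P.SubRoots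
import Pool.Agent.Lib.MP_b9e19b_mp.Small.P.V0
import Pool.Agent.Lib.MP_b9e19b_mp.Small.P.Nec
import Pool.Agent.Lib.MP_b9e19b_mp.Small.R.Omega
import Pool.Agent.Lib.MP_b9e19b_mp.Small.R.Closed
import Pool.Agent.Lib.MP_b9e19b_mp.Small.R.Compact
import Pool.Agent.Lib.MP_b9e19b_mp.Small.N3.Main

set_option autoImplicit false

/-!
# Moeckel's question Q1: reduction to the absence of configurations with `Nec`
-/

namespace RelEqN.Small

open Spec

theorem necAll : StmtNec :=
  stmtNec stmtTr4 (stmtRootSums stmtRootsSq) stmtPencilPos stmtTrA2 stmtSymm stmtConv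
    (stmtSplit stmtSymm) stmtSubRoots (stmtV0 stmtSymm)

theorem compactAll : StmtCompact := stmtCompact stmtOmega stmtClosed

/-- Q1 for `N` bodies follows from the absence of configurations with `Nec`; for `N ≥ 10` nothing
has to be assumed. -/
theorem q1_of (N : ℕ) (hN : 3 ≤ N) (h : N ≤ 9 → NoNec N) : Q1 N := by
  rcases le_or_gt 10 N with h10 | h10
  · exact stmtTen N h10
  · refine compactAll N (by omega) ?_
    intro ω q hq hs
    obtain ⟨q', hq', hs'⟩ := stmtOmega N (one N) ω q hq hs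
    exact h (by omega) q' (necAll N hN q' hq' hs')

end RelEqN.Small
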