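import Pool.Agent.Lib.MP_b9e19b_mp.Pair

set_option autoImplicit false

/-!
# Moeckel's question Q1 for few bodies: the objects

Unit masses, angular velocity `1`. A central configuration `q : Fin N → ℂ` satisfies
`∑ k, w_{jk} (q_j - q_k) = q_j` with `w_{jk} = |q_j - q_k|⁻³` (and `w_{jj} = 0`).
-/

open Module

namespace RelEqN.Small

variable {N : ℕ}

/-- unit masses -/
noncomputable def one (N : ℕ) : Fin N → ℝ := fun _ => 1

/-- `w_{jk} = |q_j - q_k|⁻³`; it is `0` on the diagonal because `(0 ^ 3)⁻¹ = 0`. -/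
noncomputable def wt (q : Fin N → ℂ) (j k : Fin N) : ℝ := (‖q j - q k‖ ^ 3)⁻¹

/-- `q` is a central configuration for unit masses and angular velocity `1`. -/
def CC (q : Fin N → ℂ) : Prop :=
  Function.Injective q ∧ ∀ j, ∑ k, (wt q j k : ℂ) * (q j - q k) = q j

/-- `T = ∑_{j ≠ k} |q_j - q_k|⁻³` (ordered pairs) -/
noncomputable def T (q : Fin N → ℂ) : ℝ := ∑ j, ∑ k, wt q j k

/-- `d_j = ∑_k w_{jk}` -/
noncomputable def dd (q : Fin N → ℂ) (j : Fin N) : ℝ := ∑ k, wt q j k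

/-- `w_{jk} u_{jk}²` with `u_{jk} = (q_j - q_k) / |q_j - q_k|` (`0` on the diagonal) -/
noncomputable def wu (q : Fin N → ℂ) (j k : Fin N) : ℂ :=
  ((‖q j - q k‖ ^ 5)⁻¹ : ℝ) * (q j - q k) ^ 2

/-- `c_j = ∑_k w_{jk} u_{jk}²` -/
noncomputable def cc (q : Fin N → ℂ) (j : Fin N) : ℂ := ∑ k, wu q j k

/-- the fourth power sum of the nontrivial frequencies -/
noncomputable def p4 (q : Fin N → ℂ) : ℝ :=
  (2 * N - 3) - 6 * T q + 1 / 2 * ∑ j, dd q j ^ 2 + 9 / 2 * ∑ j, ‖cc q j‖ ^ 2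
    + 5 * ∑ j, ∑ k, wt q j k ^ 2

/-- `s = 2N - 3 - T`, the sum of the squares of the nontrivial frequencies -/
noncomputable def sS (q : Fin N → ℂ) : ℝ := (2 * N - 3) - T q

/-- The Hermitian form of the quadratic pencil `ν² + B - 2 i ν J` in the coordinates
`(a, b)` of the complexified configuration space (`J = i` on `a`, `J = -i` on `b`). -/
noncomputable def Hf (q : Fin N → ℂ) (ν : ℝ) (a b : Fin N → ℂ) : ℝ :=
  (ν + 1) ^ 2 * ∑ j, ‖a j‖ ^ 2 + (ν - 1) ^ 2 * ∑ j, ‖b j‖ ^ 2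
    + 1 / 4 * ∑ j, ∑ k, wt q j k * (‖a j - a k‖ ^ 2 + ‖b j - b k‖ ^ 2)
    + 3 / 2 * (∑ j, ∑ k, wu q j k * (star (a j - a k) * (b j - b k))).re

/-- the lowest value of the form on the four-dimensional space of trivial modes, `0 ≤ ν ≤ 1` -/
noncomputable def lam (ν : ℝ) : ℝ := ν ^ 2 + 3 / 2 - Real.sqrt (4 * ν ^ 2 + 9 / 4)

/-- Necessary conditions for the spectral stability of the relative equilibrium `q`
(unit masses, angular velocity `1`). -/
structure Nec (q : Fin N → ℂ) : Prop where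
  /-- `q` is a central configuration -/
  isCC : CC q
  /-- the trace inequality -/
  tr : T q ≤ 2 * N - 3
  /-- Cauchy-Schwarz for the squares of the frequencies -/
  lo : sS q ^ 2 ≤ (2 * N - 4) * p4 q
  /-- the squares of the frequencies are nonnegative -/
  hi : p4 q ≤ sS q ^ 2
  /-- above the largest frequency the form is nonnegative on the complement of the trivial modes -/
  pos : ∀ ν : ℝ, 0 ≤ ν → ν ≤ 1 → sS q ≤ ν ^ 2 → ∀ a b : Fin N → ℂ,
    lam ν * (∑ j, ‖a j‖ ^ 2 + ∑ j, ‖b j‖ ^ 2) ≤ Hf q ν a b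

/-- no configuration of `N` unit masses satisfies the necessary conditions -/
def NoNec (N : ℕ) : Prop := ∀ q : Fin N → ℂ, ¬ Nec q

/-- no relative equilibrium of `N` unit masses is spectrally stable -/
def NoStable (N : ℕ) : Prop :=
  ∀ (ω : ℝ) (q : Fin N → ℂ), IsRelEq (one N) ω q → ¬ SpectrallyStable (one N) ω q

/-- Moeckel's question Q1 for `N` bodies: there is an open set of positive mass vectors that
contains all equal-mass points and for which no relative equilibrium is spectrally stable. -/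
def Q1 (N : ℕ) : Prop :=
  ∃ U : Set (Fin N → ℝ), IsOpen U ∧ (∀ c : ℝ, 0 < c → (fun _ => c) ∈ U) ∧
    (∀ m ∈ U, ∀ j, 0 < m j) ∧
    ∀ m ∈ U, ∀ (ω : ℝ) (q : Fin N → ℂ), IsRelEq m ω q → ¬ SpectrallyStable m ω q

/-- the real inner product of `Fin N → ℂ` -/
noncomputable def ip (x y : Fin N → ℂ) : ℝ := ∑ j, (star (x j) * y j).re

/-- the operator `B = A + 1` -/
noncomputable def Bm (q : Fin N → ℂ) : (Fin N → ℂ) →ₗ[ℝ] (Fin N → ℂ) :=
  Amap (one N) q + LinearMap.id

/-- the real form of the pencil -/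
noncomputable def Rf (q : Fin N → ℂ) (ν : ℝ) (x y : Fin N → ℂ) : ℝ :=
  ν ^ 2 * (ip x x + ip y y) + ip x (Bm q x) + ip y (Bm q y) + 4 * ν * ip x (Jmap N y)

end RelEqN.Small
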