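import Pool.Agent.Lib.MP_b9e19b_mp.Small.Spec

set_option autoImplicit false

/-!
# Moeckel's question Q1: `N ≥ 10` and the final assembly
-/

open Module

namespace RelEqN.Small.TenM

/-- The set of positive mass vectors that are close to the equal-mass point. -/
def nearEqual (N : ℕ) : Set (Fin N → ℝ) :=
  {m | ∀ j, 0 < m j ∧ (80 * N + 341) * m j < 115 * ∑ k, m k}

lemma ten (N : ℕ) (hN : 10 ≤ N) :
    IsOpen (nearEqual N) ∧ (∀ c : ℝ, 0 < c → (fun _ => c) ∈ nearEqual N) ∧
      ∀ m ∈ nearEqual N, ∀ (ω : ℝ) (q : Fin N → ℂ),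
        IsRelEq m ω q → ¬ SpectrallyStable m ω q := by
  refine ⟨?_, ?_, ?_⟩
  · have h : nearEqual N = ⋂ j : Fin N, {m : Fin N → ℝ | 0 < m j ∧ (80 * N + 341) * m j < 115 * ∑ k, m k} := by
      ext m
      simp [nearEqual]
    rw [h]
    apply isOpen_iInter_of_finite
    intro j
    apply IsOpen.inter
    · exact isOpen_lt continuous_const (continuous_apply j)
    · exact isOpen_lt (continuous_const.mul (continuous_apply j))
        (continuous_const.mul (continuous_finsetSum _ fun k _ => continuous_apply k))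
  · intro c hc j
    refine ⟨hc, ?_⟩
    simp only [Finset.sum_const, Finset.card_univ, Fintype.card_fin, nsmul_eq_mul]
    have hN' : (10 : ℝ) ≤ N := by exact_mod_cast hN
    nlinarith
  · intro m hm ω q hq hs
    have hj0 : Fin N := ⟨0, by omega⟩
    have : Nonempty (Fin N) := ⟨hj0⟩
    obtain ⟨i, hi⟩ := Finite.exists_max m
    have h1 := main_ineq (by omega) (fun j => (hm j).1) hq hs (m i) hi
    exact absurd (hm i).2 (not_lt.2 h1)

end RelEqN.Small.TenM

namespace RelEqN.Small.Spec

/-- `N ≥ 10`. -/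
theorem stmtTen : StmtTen := by
  intro N hN
  obtain ⟨h1, h2, h3⟩ := TenM.ten N hN
  exact ⟨TenM.nearEqual N, h1, h2, fun m hm j => (hm j).1, h3⟩

/-- The final assembly. -/
theorem stmtFinal (h1 : StmtNec) (h2 : StmtOmega) (h3 : StmtCompact) : StmtFinal := by
  intro hno N hN
  rcases le_or_gt 10 N with h10 | h10
  · exact stmtTen N h10
  · refine h3 N (by omega) ?_
    intro ω q hq hs
    obtain ⟨q', hq', hs'⟩ := h2 N (one N) ω q hq hs
    exact hno N hN (by omega) q' (h1 N hN q' hq' hs')

end RelEqN.Small.Spec
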