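import Mathlib

set_option autoImplicit false

/-!
# Average doubling for Gaussians in the plane

For points `x_j` of the plane with weights `p_j`, `b ↦ b ∑ p_j p_k exp (-b |x_k - x_j|²)` is
increasing (positive definiteness of the difference, by the Fourier transform).
-/

open MeasureTheory

namespace RelEqN.Small.Gauss

variable {N : ℕ}

/-- `∑_{j,k} p_j p_k exp (-b |x_k - x_j|²)` -/
noncomputable def G (p : Fin N → ℝ) (x : Fin N → ℂ) (b : ℝ) : ℝ :=
  ∑ j, ∑ k, p j * p k * Real.exp (-b * ‖x k - x j‖ ^ 2)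

/-- `∑_k p_k exp (i ⟨x_k, v⟩)` -/
noncomputable def S (p : Fin N → ℝ) (x : Fin N → ℂ) (v : ℂ) : ℂ :=
  ∑ k, (p k : ℂ) * Complex.exp (Complex.I * ((inner ℝ (x k) v : ℝ) : ℂ))

theorem pair_eq (p : Fin N → ℝ) (x : Fin N → ℂ) (c : ℝ) (v : ℂ) :
    ((Real.exp (-c * ‖v‖ ^ 2) * Complex.normSq (S p x v) : ℝ) : ℂ) =
      ∑ j, ∑ k, ((p j * p k : ℝ) : ℂ) *
        Complex.exp (-(c : ℂ) * (‖v‖ : ℂ) ^ 2 + Complex.I * ((inner ℝ (x k - x j) v : ℝ) : ℂ)) := by
  have h1 : ((Complex.normSq (S p x v) : ℝ) : ℂ) = (∑ k, (p k : ℂ) *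
      Complex.exp (Complex.I * ((inner ℝ (x k) v : ℝ) : ℂ))) *
      ∑ j, (p j : ℂ) * Complex.exp (-(Complex.I * ((inner ℝ (x j) v : ℝ) : ℂ))) := by
    rw [← Complex.mul_conj, S, map_sum]
    congr 1
    refine Finset.sum_congr rfl fun j _ => ?_
    rw [map_mul, Complex.conj_ofReal, ← Complex.exp_conj, map_mul, Complex.conj_I,
      Complex.conj_ofReal, neg_mul]
  push_cast
  rw [h1, Finset.sum_mul_sum, Finset.sum_comm, Finset.mul_sum]
  refine Finset.sum_congr rfl fun j _ => ?_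
  rw [Finset.mul_sum]
  refine Finset.sum_congr rfl fun k _ => ?_
  rw [inner_sub_left, Complex.exp_add, Complex.ofReal_sub, mul_sub, sub_eq_add_neg
    (Complex.I * _), Complex.exp_add]
  ring

theorem integrable_pair (p : Fin N → ℝ) (x : Fin N → ℂ) (c : ℝ) (hc : 0 < c) :
    Integrable (fun v : ℂ => ∑ j, ∑ k, ((p j * p k : ℝ) : ℂ) *
        Complex.exp (-(c : ℂ) * (‖v‖ : ℂ) ^ 2 +
          Complex.I * ((inner ℝ (x k - x j) v : ℝ) : ℂ))) := by
  refine integrable_finsetSum _ fun j _ => integrable_finsetSum _ fun k _ => ?_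
  exact (GaussianFourier.integrable_cexp_neg_mul_sq_norm_add (by simpa using hc) Complex.I
    (x k - x j)).const_mul _

theorem integral_pair (p : Fin N → ℝ) (x : Fin N → ℂ) (b : ℝ) (hb : 0 < b) :
    ∫ v : ℂ, Real.exp (-(1 / (4 * b)) * ‖v‖ ^ 2) * Complex.normSq (S p x v) =
      4 * Real.pi * (b * G p x b) := by
  have hc : 0 < 1 / (4 * b) := by positivity
  have h0 : ((∫ v : ℂ, Real.exp (-(1 / (4 * b)) * ‖v‖ ^ 2) * Complex.normSq (S p x v) : ℝ) : ℂ) =
      ((4 * Real.pi * (b * G p x b) : ℝ) : ℂ) := by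
    rw [← integral_complex_ofReal]
    simp_rw [pair_eq]
    rw [integral_finsetSum _ fun j _ => integrable_finsetSum _ fun k _ =>
      (GaussianFourier.integrable_cexp_neg_mul_sq_norm_add (by simpa using hc) Complex.I
        (x k - x j)).const_mul _]
    unfold G
    push_cast
    rw [Finset.mul_sum, Finset.mul_sum]
    refine Finset.sum_congr rfl fun j _ => ?_
    rw [integral_finsetSum _ fun k _ =>
      (GaussianFourier.integrable_cexp_neg_mul_sq_norm_add (by simpa using hc) Complex.I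
        (x k - x j)).const_mul _, Finset.mul_sum, Finset.mul_sum]
    refine Finset.sum_congr rfl fun k _ => ?_
    rw [integral_const_mul, GaussianFourier.integral_cexp_neg_mul_sq_norm_add (by simpa using hc)]
    have hb' : (b : ℂ) ≠ 0 := by exact_mod_cast hb.ne'
    have e1 : ((Module.finrank ℝ ℂ : ℂ) / 2 : ℂ) = 1 := by
      rw [Complex.finrank_real_complex]
      norm_num
    rw [e1, Complex.cpow_one, Complex.I_sq]
    have e2 : (Real.pi : ℂ) / (1 / (4 * (b : ℂ))) = 4 * Real.pi * b := by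
      field_simp
    have e3 : (-1 : ℂ) * (‖x k - x j‖ : ℂ) ^ 2 / (4 * (1 / (4 * (b : ℂ)))) =
        -(b : ℂ) * (‖x k - x j‖ : ℂ) ^ 2 := by
      field_simp
    rw [e2, e3]
    ring
  exact_mod_cast h0

theorem G_mono (p : Fin N → ℝ) (x : Fin N → ℂ) {a b : ℝ} (ha : 0 < a) (hab : a ≤ b) :
    a * G p x a ≤ b * G p x b := by
  have hb : 0 < b := ha.trans_le hab
  have hi : ∀ c : ℝ, 0 < c → Integrable (fun v : ℂ =>
      Real.exp (-(1 / (4 * c)) * ‖v‖ ^ 2) * Complex.normSq (S p x v)) := by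
    intro c hc
    have hc' : 0 < 1 / (4 * c) := by positivity
    have h1 := (integrable_pair p x (1 / (4 * c)) hc').re
    refine h1.congr (Filter.Eventually.of_forall fun v => ?_)
    have h2 := pair_eq p x (1 / (4 * c)) v
    simp only
    rw [← h2]
    exact Complex.ofReal_re _
  have h1 : ∫ v : ℂ, Real.exp (-(1 / (4 * a)) * ‖v‖ ^ 2) * Complex.normSq (S p x v) ≤
      ∫ v : ℂ, Real.exp (-(1 / (4 * b)) * ‖v‖ ^ 2) * Complex.normSq (S p x v) := by
    refine integral_mono (hi a ha) (hi b hb) fun v => ?_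
    refine mul_le_mul_of_nonneg_right (Real.exp_le_exp.2 ?_) (Complex.normSq_nonneg _)
    refine mul_le_mul_of_nonneg_right (neg_le_neg ?_) (sq_nonneg _)
    exact one_div_le_one_div_of_le (by positivity) (by linarith)
  rw [integral_pair p x a ha, integral_pair p x b hb] at h1
  exact le_of_mul_le_mul_left h1 (by positivity)

end RelEqN.Small.Gauss
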