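import Pool.Agent.Lib.MP_b9e19b_mp.Small.Assembly

set_option autoImplicit false

/-!
# The neighbourhoods of Q1 are uniform in the number of bodies
-/

open Module

namespace RelEqN.Small.Unif

variable {N : ℕ}

theorem accel_scale (t : ℝ) (ht : 0 < t) (m : Fin N → ℝ) (q : Fin N → ℂ) (j : Fin N) :
    accel (fun k => (t ^ 3)⁻¹ * m k) (fun k => (t⁻¹ : ℝ) • q k) j = (t⁻¹ : ℝ) • accel m q j := by
  unfold accel
  rw [Finset.smul_sum]
  refine Finset.sum_congr rfl fun k _ => ?_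
  rw [← smul_sub, norm_smul, Real.norm_of_nonneg (inv_nonneg.2 ht.le), smul_smul, smul_smul]
  congr 1
  rw [mul_pow]
  by_cases h0 : ‖q k - q j‖ = 0
  · rw [h0]
    simp
  · field_simp

theorem Amap_scale (t : ℝ) (ht : 0 < t) (m : Fin N → ℝ) (q : Fin N → ℂ) :
    Amap (fun k => (t ^ 3)⁻¹ * m k) (fun k => (t⁻¹ : ℝ) • q k) = Amap m q := by
  apply LinearMap.ext
  intro ξ
  funext j
  rw [Amap_apply, Amap_apply]
  refine Finset.sum_congr rfl fun k _ => ?_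
  rw [← smul_sub, CompactM.gD_scale t ht, smul_smul]
  congr 1
  field_simp

theorem scale (t : ℝ) (ht : 0 < t) (m : Fin N → ℝ) (q : Fin N → ℂ) (hrel : IsRelEq m 1 q)
    (hst : SpectrallyStable m 1 q) :
    IsRelEq (fun k => (t ^ 3)⁻¹ * m k) 1 (fun k => (t⁻¹ : ℝ) • q k) ∧
      SpectrallyStable (fun k => (t ^ 3)⁻¹ * m k) 1 (fun k => (t⁻¹ : ℝ) • q k) := by
  have hq : Function.Injective q := hrel.2.1
  have heq : ∀ j, accel m q j = -q j := by
    intro j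
    rw [hrel.eqn]
    simp
  have hqi : Function.Injective (fun k => (t⁻¹ : ℝ) • q k) := by
    intro j k hjk
    refine hq ?_
    have h3 : (t⁻¹ : ℝ) • q j = (t⁻¹ : ℝ) • q k := hjk
    exact smul_right_injective ℂ (inv_ne_zero ht.ne') h3
  refine ⟨CompactM.isRelEq_of_eqn hqi fun j => ?_, ?_⟩
  · rw [accel_scale t ht, heq, smul_neg]
  · unfold SpectrallyStable at hst ⊢
    rw [linearization_eq _ 1 _ hqi, Amap_scale t ht]
    rw [linearization_eq m 1 q hq] at hst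
    exact hst

/-- the neighbourhood of Q1 can be taken to be `N m_j < (1 + δ) (m_1 + … + m_N)` -/
theorem unif_of_q1 (hN : 0 < N) (h : Q1 N) : ∃ δ : ℝ, 0 < δ ∧ ∀ m : Fin N → ℝ, (∀ j, 0 < m j) →
    (∀ j, N * m j < (1 + δ) * ∑ k, m k) → ∀ (ω : ℝ) (q : Fin N → ℂ), IsRelEq m ω q →
      ¬ SpectrallyStable m ω q := by
  obtain ⟨U, hU, h1, -, h2⟩ := h
  obtain ⟨ε, hε, hball⟩ := Metric.isOpen_iff.1 hU _ (h1 1 one_pos)
  have hNr : (0 : ℝ) < N := by exact_mod_cast hN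
  refine ⟨ε / N, by positivity, ?_⟩
  intro m hm hb ω q hrel hst
  obtain ⟨q₁, hrel₁, hst₁⟩ := Spec.stmtOmega N m ω q hrel hst
  haveI : Nonempty (Fin N) := ⟨⟨0, hN⟩⟩
  have hS : 0 < ∑ k, m k := Finset.sum_pos (fun k _ => hm k) Finset.univ_nonempty
  set μ : ℝ := (∑ k, m k) / N with hμ
  have hμ0 : 0 < μ := by positivity
  obtain ⟨t, ht, htc⟩ : ∃ t : ℝ, 0 < t ∧ t ^ 3 = μ := by
    refine ⟨μ ^ ((1 : ℝ) / 3), Real.rpow_pos_of_pos hμ0 _, ?_⟩
    rw [← Real.rpow_natCast, ← Real.rpow_mul hμ0.le]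
    norm_num
  obtain ⟨hrel₂, hst₂⟩ := scale t ht m q₁ hrel₁ hst₁
  refine h2 _ (hball ?_) 1 _ hrel₂ hst₂
  rw [htc]
  have hsum : ∑ k, μ⁻¹ * m k = N := by
    rw [← Finset.mul_sum, hμ]
    field_simp
  have hup : ∀ j, μ⁻¹ * m j < 1 + ε / N := by
    intro j
    have h3 := hb j
    have h4 : ∑ k, m k = N * μ := by
      rw [hμ]
      field_simp
    rw [h4] at h3
    rw [inv_mul_lt_iff₀ hμ0]
    nlinarith [h3, hNr]
  rw [Metric.mem_ball, dist_pi_lt_iff hε]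
  intro j
  rw [Real.dist_eq, abs_lt]
  have hj := hup j
  have hεN : ε / N ≤ ε := by
    rw [div_le_iff₀ hNr]
    have : (1 : ℝ) ≤ N := by exact_mod_cast hN
    nlinarith
  constructor
  · have h5 : ∑ k ∈ Finset.univ.erase j, μ⁻¹ * m k ≤ ∑ k ∈ Finset.univ.erase j, (1 + ε / N) :=
      Finset.sum_le_sum fun k _ => (hup k).le
    have h6 := Finset.add_sum_erase Finset.univ (fun k => μ⁻¹ * m k) (Finset.mem_univ j)
    rw [hsum] at h6
    rw [Finset.sum_const, Finset.card_erase_of_mem (Finset.mem_univ j), Finset.card_univ,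
      Fintype.card_fin, nsmul_eq_mul, Nat.cast_sub (by omega), Nat.cast_one] at h5
    have h7 : ((N : ℝ) - 1) * (1 + ε / N) = N - 1 + ε - ε / N := by
      field_simp
      ring
    have h8 : 0 < ε / N := by positivity
    linarith
  · linarith

theorem ten (N : ℕ) (hN : 10 ≤ N) (m : Fin N → ℝ) (hm : ∀ j, 0 < m j)
    (hb : ∀ j, N * m j < (1 + 7 / 1000) * ∑ k, m k) (ω : ℝ) (q : Fin N → ℂ)
    (hrel : IsRelEq m ω q) : ¬ SpectrallyStable m ω q := by
  intro hst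
  refine (TenM.ten N hN).2.2 m ?_ ω q hrel hst
  intro j
  refine ⟨hm j, ?_⟩
  have hN' : (10 : ℝ) ≤ N := by exact_mod_cast hN
  have h1 := hb j
  have h2 := hm j
  nlinarith

/-- uniform version of Q1 -/
theorem unif (h : ∀ N, 3 ≤ N → N ≤ 9 → Q1 N) : ∃ δ : ℝ, 0 < δ ∧ ∀ N : ℕ, 3 ≤ N →
    ∀ m : Fin N → ℝ, (∀ j, 0 < m j) → (∀ j, N * m j < (1 + δ) * ∑ k, m k) →
      ∀ (ω : ℝ) (q : Fin N → ℂ), IsRelEq m ω q → ¬ SpectrallyStable m ω q := by
  choose! d hd0 hd using fun (N : ℕ) (hN : 3 ≤ N ∧ N ≤ 9) =>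
    unif_of_q1 (N := N) (by omega) (h N hN.1 hN.2)
  have hne : (Finset.Icc 3 9).Nonempty := ⟨3, by simp⟩
  refine ⟨min (7 / 1000) ((Finset.Icc 3 9).inf' hne d), ?_, ?_⟩
  · refine lt_min (by norm_num) ?_
    rw [Finset.lt_inf'_iff]
    intro n hn
    rw [Finset.mem_Icc] at hn
    exact hd0 n hn
  · intro N hN m hm hb ω q hrel
    haveI : Nonempty (Fin N) := ⟨⟨0, by omega⟩⟩
    have hS : 0 < ∑ k, m k := Finset.sum_pos (fun k _ => hm k) Finset.univ_nonempty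
    set δ₁ : ℝ := (Finset.Icc 3 9).inf' hne d with hδ₁
    rcases le_or_gt 10 N with h10 | h10
    · have h7 : min (7 / 1000) δ₁ ≤ (7 / 1000 : ℝ) := min_le_left _ _
      refine ten N h10 m hm (fun j => (hb j).trans_le ?_) ω q hrel
      exact mul_le_mul_of_nonneg_right (by linarith) hS.le
    · have h9 : 3 ≤ N ∧ N ≤ 9 := ⟨hN, by omega⟩
      have h7 : min (7 / 1000) δ₁ ≤ δ₁ := min_le_right _ _
      have h1 : δ₁ ≤ d N := Finset.inf'_le d (by rw [Finset.mem_Icc]; exact h9)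
      refine hd N h9 m hm (fun j => (hb j).trans_le ?_) ω q hrel
      exact mul_le_mul_of_nonneg_right (by linarith) hS.le

end RelEqN.Small.Unif
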