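import Pool.Agent.Lib.MP_b9e19b_mp.Small.Gauss
import Pool.Agent.Lib.MP_b9e19b_mp.Small.Uniform

set_option autoImplicit false

/-!
# The largest mass of a stable relative equilibrium is at least `c N^(1/3)` times the mean mass
-/

open Module

namespace RelEqN.Small.Growth

open Gauss

variable {N : ℕ}

theorem inv_le_aux (s : ℝ) (hs : 0 < s) (n : ℕ) :
    (1 / s ≤ 1 + ∑ i ∈ Finset.range n, 2 * Real.exp 1 * 2 ^ i * Real.exp (-(4 ^ i) * s ^ 2)) ∨
      s * 2 ^ n < 1 := by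
  induction n with
  | zero =>
    rcases lt_or_ge s 1 with h | h
    · right
      simpa using h
    · left
      simp only [Finset.range_zero, Finset.sum_empty, add_zero]
      rw [div_le_one hs]
      exact h
  | succ n ih =>
    rcases ih with ih | ih
    · left
      rw [Finset.sum_range_succ]
      have : 0 ≤ 2 * Real.exp 1 * 2 ^ n * Real.exp (-(4 ^ n) * s ^ 2) := by positivity
      linarith
    · rcases lt_or_ge (s * 2 ^ (n + 1)) 1 with h | h
      · right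
        exact h
      · left
        rw [Finset.sum_range_succ]
        have h0 : 0 ≤ ∑ i ∈ Finset.range n, 2 * Real.exp 1 * 2 ^ i * Real.exp (-(4 ^ i) * s ^ 2) :=
          Finset.sum_nonneg fun i _ => by positivity
        have h1 : 1 / s ≤ 2 * 2 ^ n := by
          rw [div_le_iff₀ hs]
          rw [pow_succ] at h
          linarith
        have h2 : (4 : ℝ) ^ n * s ^ 2 ≤ 1 := by
          have e : (4 : ℝ) ^ n * s ^ 2 = (s * 2 ^ n) ^ 2 := by
            rw [mul_pow, ← pow_mul, mul_comm n 2, pow_mul]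
            norm_num
            ring
          rw [e]
          have h3 : 0 ≤ s * 2 ^ n := by positivity
          nlinarith
        have h3 : 1 ≤ Real.exp 1 * Real.exp (-(4 ^ n) * s ^ 2) := by
          rw [← Real.exp_add]
          exact Real.one_le_exp (by linarith)
        have h4 : (2 : ℝ) * 2 ^ n ≤ 2 * Real.exp 1 * 2 ^ n * Real.exp (-(4 ^ n) * s ^ 2) := by
          have h5 : (0 : ℝ) < 2 * 2 ^ n := by positivity
          nlinarith [mul_le_mul_of_nonneg_left h3 h5.le]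
        linarith

theorem inv_le (s : ℝ) (hs : 0 < s) (n : ℕ) :
    1 / s ≤ 1 + ∑ i ∈ Finset.range n, 2 * Real.exp 1 * 2 ^ i * Real.exp (-(4 ^ i) * s ^ 2) +
      1 / (4 ^ n * s ^ 3) := by
  rcases inv_le_aux s hs n with h | h
  · have : 0 < 1 / (4 ^ n * s ^ 3) := by positivity
    linarith
  · have h0 : 0 ≤ ∑ i ∈ Finset.range n, 2 * Real.exp 1 * 2 ^ i * Real.exp (-(4 ^ i) * s ^ 2) :=
      Finset.sum_nonneg fun i _ => by positivity
    have h1 : 1 / s ≤ 1 / (4 ^ n * s ^ 3) := by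
      refine one_div_le_one_div_of_le (by positivity) ?_
      have h2 : (4 : ℝ) ^ n * s ^ 3 = (s * 2 ^ n) ^ 2 * s := by
        rw [mul_pow, ← pow_mul, mul_comm n 2, pow_mul]
        norm_num
        ring
      rw [h2]
      have h3 : 0 ≤ s * 2 ^ n := by positivity
      have h4 : (s * 2 ^ n) ^ 2 ≤ 1 := by nlinarith
      nlinarith
    linarith

theorem exp_le_inv (s : ℝ) (hs : 0 < s) (n : ℕ) :
    Real.exp (-(4 ^ n) * s ^ 2) ≤ 1 / (8 ^ n * s ^ 3) := by
  set y : ℝ := 2 ^ n * s with hy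
  have hy0 : 0 < y := by positivity
  have e1 : -(4 ^ n) * s ^ 2 = -(y ^ 2) := by
    rw [hy, mul_pow, ← pow_mul, mul_comm n 2, pow_mul]
    norm_num
  have e2 : (8 : ℝ) ^ n * s ^ 3 = y ^ 3 := by
    rw [hy, mul_pow, ← pow_mul, mul_comm n 3, pow_mul]
    norm_num
  rw [e1, e2, Real.exp_neg, ← one_div]
  refine one_div_le_one_div_of_le (by positivity) ?_
  have h1 := Real.quadratic_le_exp_of_nonneg (sq_nonneg y)
  nlinarith [sq_nonneg (y ^ 2 - y), sq_nonneg (y ^ 2 - 2 * y), sq_nonneg y]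

/-- `∑ p_j p_k / |x_k - x_j|` -/
noncomputable def E1 (p : Fin N → ℝ) (x : Fin N → ℂ) : ℝ := ∑ j, ∑ k, p j * p k / ‖x k - x j‖

/-- `∑ p_j p_k |x_k - x_j|²` -/
noncomputable def E2 (p : Fin N → ℝ) (x : Fin N → ℂ) : ℝ :=
  ∑ j, ∑ k, p j * p k * ‖x k - x j‖ ^ 2

/-- `∑ p_j p_k / |x_k - x_j|³` -/
noncomputable def E3 (p : Fin N → ℝ) (x : Fin N → ℂ) : ℝ :=
  ∑ j, ∑ k, p j * p k / ‖x k - x j‖ ^ 3

theorem sum_sum_one {p : Fin N → ℝ} (hs : ∑ j, p j = 1) : ∑ j, ∑ k, p j * p k = 1 := by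
  simp_rw [← Finset.mul_sum, hs, mul_one]
  exact hs

theorem G_nonneg {p : Fin N → ℝ} (hp : ∀ j, 0 < p j) (x : Fin N → ℂ) (b : ℝ) : 0 ≤ G p x b :=
  Finset.sum_nonneg fun j _ => Finset.sum_nonneg fun k _ => by
    have := mul_pos (hp j) (hp k)
    positivity

theorem E1_le {p : Fin N → ℝ} (hp : ∀ j, 0 < p j) (hs : ∑ j, p j = 1) (x : Fin N → ℂ)
    (hx : Function.Injective x) (n : ℕ) :
    E1 p x ≤ 1 + 4 * Real.exp 1 * (4 ^ n * G p x (4 ^ n)) + E3 p x / 4 ^ n := by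
  have h1 : ∀ j k, p j * p k / ‖x k - x j‖ ≤ p j * p k + ∑ i ∈ Finset.range n,
      2 * Real.exp 1 * 2 ^ i * (p j * p k * Real.exp (-(4 ^ i) * ‖x k - x j‖ ^ 2)) +
        p j * p k / ‖x k - x j‖ ^ 3 / 4 ^ n := by
    intro j k
    have hpp := mul_pos (hp j) (hp k)
    by_cases hjk : j = k
    · subst hjk
      have h0 : 0 ≤ ∑ i ∈ Finset.range n,
          2 * Real.exp 1 * 2 ^ i * (p j * p j * Real.exp (-(4 ^ i) * ‖x j - x j‖ ^ 2)) :=
        Finset.sum_nonneg fun i _ => by positivity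
      have e1 : p j * p j / ‖x j - x j‖ = 0 := by simp
      have e2 : p j * p j / ‖x j - x j‖ ^ 3 / 4 ^ n = 0 := by simp
      rw [e1, e2]
      linarith
    · have hne : x k - x j ≠ 0 := sub_ne_zero.2 fun h => hjk (hx h).symm
      have hr : 0 < ‖x k - x j‖ := norm_pos_iff.2 hne
      have h2 := mul_le_mul_of_nonneg_left (inv_le _ hr n) hpp.le
      have e1 : p j * p k * (1 / ‖x k - x j‖) = p j * p k / ‖x k - x j‖ := by ring
      have e2 : p j * p k * (1 + ∑ i ∈ Finset.range n, 2 * Real.exp 1 * 2 ^ i *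
          Real.exp (-(4 ^ i) * ‖x k - x j‖ ^ 2) + 1 / (4 ^ n * ‖x k - x j‖ ^ 3)) =
          p j * p k + ∑ i ∈ Finset.range n,
      2 * Real.exp 1 * 2 ^ i * (p j * p k * Real.exp (-(4 ^ i) * ‖x k - x j‖ ^ 2)) +
        p j * p k / ‖x k - x j‖ ^ 3 / 4 ^ n := by
        rw [mul_add, mul_add, mul_one, Finset.mul_sum]
        congr 1
        · congr 1
          refine Finset.sum_congr rfl fun i _ => ?_
          ring
        · field_simp
      rw [e1, e2] at h2
      exact h2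
  have h2 : E1 p x ≤ ∑ j, ∑ k, (p j * p k + ∑ i ∈ Finset.range n,
      2 * Real.exp 1 * 2 ^ i * (p j * p k * Real.exp (-(4 ^ i) * ‖x k - x j‖ ^ 2)) +
        p j * p k / ‖x k - x j‖ ^ 3 / 4 ^ n) :=
    Finset.sum_le_sum fun j _ => Finset.sum_le_sum fun k _ => h1 j k
  have h3 : ∑ j, ∑ k, (p j * p k + ∑ i ∈ Finset.range n,
      2 * Real.exp 1 * 2 ^ i * (p j * p k * Real.exp (-(4 ^ i) * ‖x k - x j‖ ^ 2)) +
        p j * p k / ‖x k - x j‖ ^ 3 / 4 ^ n) = 1 + ∑ i ∈ Finset.range n,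
      2 * Real.exp 1 * 2 ^ i * G p x (4 ^ i) + E3 p x / 4 ^ n := by
    simp_rw [Finset.sum_add_distrib]
    congr 1
    · congr 1
      · exact sum_sum_one hs
      · have e1 : ∀ j, ∑ k, ∑ i ∈ Finset.range n,
            2 * Real.exp 1 * 2 ^ i * (p j * p k * Real.exp (-(4 ^ i) * ‖x k - x j‖ ^ 2)) =
            ∑ i ∈ Finset.range n, ∑ k,
            2 * Real.exp 1 * 2 ^ i * (p j * p k * Real.exp (-(4 ^ i) * ‖x k - x j‖ ^ 2)) :=
          fun j => Finset.sum_comm
        simp_rw [e1]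
        rw [Finset.sum_comm]
        refine Finset.sum_congr rfl fun i _ => ?_
        unfold G
        rw [Finset.mul_sum]
        refine Finset.sum_congr rfl fun j _ => ?_
        rw [Finset.mul_sum]
    · unfold E3
      rw [Finset.sum_div]
      refine Finset.sum_congr rfl fun j _ => ?_
      rw [Finset.sum_div]
  rw [h3] at h2
  set X : ℝ := 4 ^ n * G p x (4 ^ n) with hX
  have hX0 : 0 ≤ X := mul_nonneg (by positivity) (G_nonneg hp x _)
  have h4 : ∑ i ∈ Finset.range n, 2 * Real.exp 1 * 2 ^ i * G p x (4 ^ i) ≤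
      ∑ i ∈ Finset.range n, 2 * Real.exp 1 * X * (1 / (2 : ℝ)) ^ i := by
    refine Finset.sum_le_sum fun i hi => ?_
    have h5 : (4 : ℝ) ^ i * G p x (4 ^ i) ≤ X :=
      G_mono p x (by positivity) (pow_le_pow_right₀ (by norm_num) (Finset.mem_range.1 hi).le)
    have h6 : (2 : ℝ) ^ i * G p x (4 ^ i) = (4 ^ i * G p x (4 ^ i)) * (1 / (2 : ℝ)) ^ i := by
      have e : (4 : ℝ) ^ i * (1 / (2 : ℝ)) ^ i = 2 ^ i := by
        rw [← mul_pow]
        norm_num
      rw [← e]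
      ring
    have h7 : (2 : ℝ) ^ i * G p x (4 ^ i) ≤ X * (1 / (2 : ℝ)) ^ i := by
      rw [h6]
      exact mul_le_mul_of_nonneg_right h5 (by positivity)
    have h8 : 0 < 2 * Real.exp 1 := by positivity
    calc 2 * Real.exp 1 * 2 ^ i * G p x (4 ^ i) = 2 * Real.exp 1 * (2 ^ i * G p x (4 ^ i)) := by ring
      _ ≤ 2 * Real.exp 1 * (X * (1 / (2 : ℝ)) ^ i) := mul_le_mul_of_nonneg_left h7 h8.le
      _ = 2 * Real.exp 1 * X * (1 / (2 : ℝ)) ^ i := by ring
  rw [← Finset.mul_sum] at h4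
  have h5 := sum_geometric_two_le n
  have h6 : 0 ≤ 2 * Real.exp 1 * X := by positivity
  have h7 := mul_le_mul_of_nonneg_left h5 h6
  linarith

theorem G_one_ge {p : Fin N → ℝ} (hp : ∀ j, 0 < p j) (hs : ∑ j, p j = 1) (x : Fin N → ℂ) :
    Real.exp (-E2 p x) ≤ G p x 1 := by
  have h1 : ∀ j k, Real.exp (-E2 p x) * (p j * p k * (1 + E2 p x) - p j * p k * ‖x k - x j‖ ^ 2) ≤
      p j * p k * Real.exp (-1 * ‖x k - x j‖ ^ 2) := by
    intro j k
    have h2 := Real.add_one_le_exp (E2 p x - ‖x k - x j‖ ^ 2)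
    have e : Real.exp (-1 * ‖x k - x j‖ ^ 2) =
        Real.exp (-E2 p x) * Real.exp (E2 p x - ‖x k - x j‖ ^ 2) := by
      rw [← Real.exp_add]
      congr 1
      ring
    rw [e]
    have hpp := mul_pos (hp j) (hp k)
    have h3 : 0 < Real.exp (-E2 p x) * (p j * p k) := by positivity
    nlinarith [mul_le_mul_of_nonneg_left h2 h3.le]
  have h2 : ∑ j, ∑ k, Real.exp (-E2 p x) * (p j * p k * (1 + E2 p x) -
      p j * p k * ‖x k - x j‖ ^ 2) ≤ G p x 1 :=
    Finset.sum_le_sum fun j _ => Finset.sum_le_sum fun k _ => h1 j k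
  simp_rw [← Finset.mul_sum, Finset.sum_sub_distrib, ← Finset.sum_mul] at h2
  have h3 : (∑ i, ∑ i_1, p i * p i_1) = 1 := sum_sum_one hs
  rw [h3] at h2
  have h4 : ∑ j, ∑ k, p j * p k * ‖x k - x j‖ ^ 2 = E2 p x := rfl
  rw [h4] at h2
  linarith

theorem G_le {p : Fin N → ℝ} (hp : ∀ j, 0 < p j) (hs : ∑ j, p j = 1) (x : Fin N → ℂ)
    (hx : Function.Injective x) (η : ℝ) (hη : ∀ j, p j ≤ η) (n : ℕ) :
    G p x (4 ^ n) ≤ η + E3 p x / 8 ^ n := by
  have h1 : ∀ j k, p j * p k * Real.exp (-(4 ^ n) * ‖x k - x j‖ ^ 2) ≤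
      (if j = k then p j * p k else 0) + p j * p k / ‖x k - x j‖ ^ 3 / 8 ^ n := by
    intro j k
    have hpp := mul_pos (hp j) (hp k)
    by_cases hjk : j = k
    · subst hjk
      simp
    · rw [if_neg hjk, zero_add]
      have hne : x k - x j ≠ 0 := sub_ne_zero.2 fun h => hjk (hx h).symm
      have hr : 0 < ‖x k - x j‖ := norm_pos_iff.2 hne
      have h2 := mul_le_mul_of_nonneg_left (exp_le_inv _ hr n) hpp.le
      have e : p j * p k * (1 / (8 ^ n * ‖x k - x j‖ ^ 3)) =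
          p j * p k / ‖x k - x j‖ ^ 3 / 8 ^ n := by
        field_simp
      rw [e] at h2
      exact h2
  have h2 : G p x (4 ^ n) ≤ ∑ j, ∑ k, ((if j = k then p j * p k else 0) +
      p j * p k / ‖x k - x j‖ ^ 3 / 8 ^ n) :=
    Finset.sum_le_sum fun j _ => Finset.sum_le_sum fun k _ => h1 j k
  simp_rw [Finset.sum_add_distrib] at h2
  have h3 : ∑ j, ∑ k, p j * p k / ‖x k - x j‖ ^ 3 / 8 ^ n = E3 p x / 8 ^ n := by
    unfold E3
    rw [Finset.sum_div]
    refine Finset.sum_congr rfl fun j _ => ?_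
    rw [Finset.sum_div]
  have h4 : ∑ j : Fin N, ∑ k, (if j = k then p j * p k else 0) ≤ η := by
    have h5 : ∀ j : Fin N, ∑ k, (if j = k then p j * p k else 0) ≤ p j * η := by
      intro j
      rw [Finset.sum_ite_eq]
      simp only [Finset.mem_univ, if_true]
      exact mul_le_mul_of_nonneg_left (hη j) (hp j).le
    refine (Finset.sum_le_sum fun j _ => h5 j).trans ?_
    rw [← Finset.sum_mul, hs, one_mul]
  rw [h3] at h2
  linarith

/-- lower bound for `∑ p_j p_k / r³` -/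
theorem core {p : Fin N → ℝ} (hp : ∀ j, 0 < p j) (hs : ∑ j, p j = 1) (x : Fin N → ℂ)
    (hx : Function.Injective x) (hvir : E2 p x = E1 p x) (η : ℝ) (hη : ∀ j, p j ≤ η) (n : ℕ)
    (hn : 42 * 4 ^ n * η ≤ 1) : 2 ^ n / 42 ≤ E3 p x := by
  have h4n : (0 : ℝ) < 4 ^ n := by positivity
  have h2n : (0 : ℝ) < 2 ^ n := by positivity
  rcases lt_or_ge 1 (E3 p x / 4 ^ n) with h | h
  · rw [lt_div_iff₀ h4n, one_mul] at h
    have h1 : (2 : ℝ) ^ n ≤ 4 ^ n := pow_le_pow_left₀ (by norm_num) (by norm_num) n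
    linarith
  · set X : ℝ := 4 ^ n * G p x (4 ^ n) with hX
    have hX0 : 0 ≤ X := mul_nonneg (by positivity) (G_nonneg hp x _)
    have h1 := E1_le hp hs x hx n
    have h2 := G_one_ge hp hs x
    have h3 : 1 * G p x 1 ≤ X :=
      G_mono p x one_pos (one_le_pow₀ (by norm_num))
    rw [one_mul] at h3
    have he := Real.exp_one_lt_d9
    have he0 : 0 < Real.exp 1 := Real.exp_pos 1
    have h4 : 1 / 21 ≤ X := by
      by_contra hlt
      push Not at hlt
      have h5 : E1 p x ≤ 3 := by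
        have h6 : Real.exp 1 * X ≤ 2.7182818286 * (1 / 21) :=
          mul_le_mul he.le hlt.le hX0 (by norm_num)
        nlinarith
      have h6 : Real.exp (-3) ≤ X := by
        refine le_trans (Real.exp_le_exp.2 ?_) (h2.trans h3)
        rw [hvir]
        linarith
      have h7 : Real.exp 3 < 21 := by
        have e : Real.exp 3 = Real.exp 1 ^ 3 := by
          rw [← Real.exp_nat_mul]
          norm_num
        rw [e]
        calc Real.exp 1 ^ 3 < 2.7182818286 ^ 3 := pow_lt_pow_left₀ he he0.le (by norm_num)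
          _ < 21 := by norm_num
      rw [Real.exp_neg] at h6
      have h8 : (1 : ℝ) / 21 < (Real.exp 3)⁻¹ := by
        rw [← one_div]
        exact one_div_lt_one_div_of_lt (Real.exp_pos 3) h7
      linarith
    have h5 := mul_le_mul_of_nonneg_left (G_le hp hs x hx η hη n) h4n.le
    have h6 : (4 : ℝ) ^ n * (η + E3 p x / 8 ^ n) = 4 ^ n * η + E3 p x / 2 ^ n := by
      have e : (8 : ℝ) ^ n = 4 ^ n * 2 ^ n := by
        rw [← mul_pow]
        norm_num
      rw [e]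
      field_simp
    rw [h6, ← hX] at h5
    have h7 : 1 / 42 ≤ E3 p x / 2 ^ n := by linarith
    rw [le_div_iff₀ h2n] at h7
    linarith

/-- **Growth**: in a spectrally stable relative equilibrium the largest mass is at least
`N^(1/3) / 267` times the mean mass. -/
theorem growth (hN : 2 ≤ N) {m : Fin N → ℝ} (hm : ∀ j, 0 < m j) {ω : ℝ} {q : Fin N → ℂ}
    (h : IsRelEq m ω q) (hst : SpectrallyStable m ω q) (μ : ℝ) (hμ : ∀ j, m j ≤ μ) :
    (N : ℝ) ^ ((1 : ℝ) / 3) * ∑ j, m j ≤ 267 * (N * μ) := by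
  have hq := h.2.1
  have hω := h.1
  set M := ∑ j, m j with hM
  have hj0 : Fin N := ⟨0, by omega⟩
  have hMpos : 0 < M := Finset.sum_pos (fun j _ => hm j) ⟨hj0, Finset.mem_univ _⟩
  have hω2 : 0 < ω ^ 2 := by positivity
  have hμ0 : 0 < μ := lt_of_lt_of_le (hm hj0) (hμ hj0)
  -- the length scale
  obtain ⟨ρ, hρ, hρ3⟩ : ∃ ρ : ℝ, 0 < ρ ∧ ρ ^ 3 * ω ^ 2 = M := by
    refine ⟨(M / ω ^ 2) ^ ((1 : ℝ) / 3), by positivity, ?_⟩
    rw [← Real.rpow_natCast, ← Real.rpow_mul (by positivity)]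
    norm_num
    field_simp
  set p : Fin N → ℝ := fun j => m j / M with hp
  set x : Fin N → ℂ := fun j => (ρ⁻¹ : ℝ) • q j with hxd
  have hp0 : ∀ j, 0 < p j := fun j => div_pos (hm j) hMpos
  have hps : ∑ j, p j = 1 := by
    rw [hp, ← Finset.sum_div, ← hM]
    exact div_self hMpos.ne'
  have hxi : Function.Injective x := by
    intro j k hjk
    refine hq ?_
    have h3 : (ρ⁻¹ : ℝ) • q j = (ρ⁻¹ : ℝ) • q k := hjk
    exact smul_right_injective ℂ (inv_ne_zero hρ.ne') h3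
  have hxn : ∀ j k, ‖x k - x j‖ = ‖q k - q j‖ / ρ := by
    intro j k
    rw [hxd]
    simp only
    rw [← smul_sub, norm_smul, Real.norm_of_nonneg (inv_nonneg.2 hρ.le)]
    ring
  have hvir : E2 p x = E1 p x := by
    have h1 := virial h
    have h2 := leibniz (com_zero h)
    have h3 : E2 p x = (∑ j, ∑ k, m j * m k * ‖q k - q j‖ ^ 2) / (M ^ 2 * ρ ^ 2) := by
      unfold E2
      rw [Finset.sum_div]
      refine Finset.sum_congr rfl fun j _ => ?_
      rw [Finset.sum_div]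
      refine Finset.sum_congr rfl fun k _ => ?_
      rw [hxn, hp]
      field_simp
    have h4 : E1 p x = (∑ j, ∑ k, m j * m k / ‖q k - q j‖) * ρ / M ^ 2 := by
      unfold E1
      rw [Finset.sum_mul, Finset.sum_div]
      refine Finset.sum_congr rfl fun j _ => ?_
      rw [Finset.sum_mul, Finset.sum_div]
      refine Finset.sum_congr rfl fun k _ => ?_
      rw [hxn, hp]
      simp only
      rw [div_div_eq_mul_div]
      field_simp
    rw [h3, h4, h2, ← h1, ← hM, ← hρ3]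
    field_simp
  set η : ℝ := μ / M with hη
  have hpη : ∀ j, p j ≤ η := fun j => div_le_div_of_nonneg_right (hμ j) hMpos.le
  have hE3 : E3 p x ≤ 2 * N * η := by
    have h1 := trace_ineq hN h hst
    have h2 : ∀ j, ∑ k ∈ Finset.univ.erase j, m k / ‖q k - q j‖ ^ 3 =
        ∑ k, m k / ‖q k - q j‖ ^ 3 := by
      intro j
      refine sum_erase_eq j _ ?_
      simp
    simp_rw [h2] at h1
    have h3 : ∑ j, ∑ k, p k / ‖x k - x j‖ ^ 3 = (∑ j, ∑ k, m k / ‖q k - q j‖ ^ 3) / ω ^ 2 := by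
      rw [Finset.sum_div]
      refine Finset.sum_congr rfl fun j _ => ?_
      rw [Finset.sum_div]
      refine Finset.sum_congr rfl fun k _ => ?_
      rw [hxn, hp]
      simp only
      rcases eq_or_ne ‖q k - q j‖ 0 with h0 | h0
      · rw [h0]
        simp
      · rw [← hρ3]
        field_simp
    have h4 : ∑ j, ∑ k, p k / ‖x k - x j‖ ^ 3 ≤ 2 * N := by
      rw [h3, div_le_iff₀ hω2]
      nlinarith
    have h5 : E3 p x ≤ η * ∑ j, ∑ k, p k / ‖x k - x j‖ ^ 3 := by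
      unfold E3
      rw [Finset.mul_sum]
      refine Finset.sum_le_sum fun j _ => ?_
      rw [Finset.mul_sum]
      refine Finset.sum_le_sum fun k _ => ?_
      rw [mul_div_assoc]
      refine mul_le_mul_of_nonneg_right (hpη j) ?_
      have := (hp0 k).le
      positivity
    have hη0 : 0 < η := div_pos hμ0 hMpos
    nlinarith
  have hNr : (1 : ℝ) ≤ 2 * N := by
    have : (2 : ℝ) ≤ N := by exact_mod_cast hN
    linarith
  obtain ⟨n, hn1, hn2⟩ := exists_nat_pow_near hNr (by norm_num : (1 : ℝ) < 8)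
  have hkey : 1 < 42 * 4 ^ (n + 1) * η := by
    by_contra hle
    push Not at hle
    have h1 := core hp0 hps x hxi hvir η hpη (n + 1) hle
    have h2 : (2 : ℝ) ^ (n + 1) / 42 ≤ 2 * N * η := h1.trans hE3
    have h4 : (0 : ℝ) < 4 ^ (n + 1) := by positivity
    have h5 : (8 : ℝ) ^ (n + 1) = 4 ^ (n + 1) * 2 ^ (n + 1) := by
      rw [← mul_pow]
      norm_num
    have h6 : (4 : ℝ) ^ (n + 1) * (2 ^ (n + 1) / 42) ≤ 4 ^ (n + 1) * (2 * N * η) :=
      mul_le_mul_of_nonneg_left h2 h4.le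
    have h7 : (2 * N : ℝ) * (42 * 4 ^ (n + 1) * η) ≤ (2 * N : ℝ) * 1 :=
      mul_le_mul_of_nonneg_left hle (by linarith)
    rw [h5] at hn2
    nlinarith
  set u : ℝ := (N : ℝ) ^ ((1 : ℝ) / 3) with hu
  have hN0 : (0 : ℝ) < N := by
    have : (2 : ℝ) ≤ N := by exact_mod_cast hN
    linarith
  have hu0 : 0 < u := Real.rpow_pos_of_pos hN0 _
  have hu3 : u ^ 3 = N := by
    rw [hu, ← Real.rpow_natCast, ← Real.rpow_mul hN0.le]
    norm_num
  have h2n : (2 : ℝ) ^ (n + 1) ≤ 2.52 * u := by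
    by_contra hlt
    push Not at hlt
    have h1 : (2.52 * u) ^ 3 < ((2 : ℝ) ^ (n + 1)) ^ 3 :=
      pow_lt_pow_left₀ hlt (by positivity) (by norm_num)
    have h2 : ((2 : ℝ) ^ (n + 1)) ^ 3 = 8 * 8 ^ n := by
      rw [← pow_mul, mul_comm (n + 1) 3, pow_mul]
      norm_num
      ring
    rw [h2, mul_pow, hu3] at h1
    nlinarith
  have h4n : (4 : ℝ) ^ (n + 1) ≤ 6.3504 * u ^ 2 := by
    have h1 : (4 : ℝ) ^ (n + 1) = ((2 : ℝ) ^ (n + 1)) ^ 2 := by
      rw [← pow_mul, mul_comm (n + 1) 2, pow_mul]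
      norm_num
    rw [h1]
    have h2 := pow_le_pow_left₀ (by positivity) h2n 2
    nlinarith
  have hη0 : 0 < η := div_pos hμ0 hMpos
  have h8 : 1 < 267 * (u ^ 2 * η) := by
    have h9 : 4 ^ (n + 1) * η ≤ 6.3504 * u ^ 2 * η := mul_le_mul_of_nonneg_right h4n hη0.le
    have h10 : 0 < u ^ 2 * η := by positivity
    nlinarith
  have h9 : u < 267 * (N * η) := by
    have h10 : u * 1 < u * (267 * (u ^ 2 * η)) := mul_lt_mul_of_pos_left h8 hu0
    have h11 : u * (267 * (u ^ 2 * η)) = 267 * (u ^ 3 * η) := by ring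
    rw [h11, hu3, mul_one] at h10
    exact h10
  have h10 : u * M ≤ 267 * (N * η) * M := mul_le_mul_of_nonneg_right h9.le hMpos.le
  have h11 : 267 * (N * η) * M = 267 * (N * μ) := by
    rw [hη]
    field_simp
  rw [h11] at h10
  exact h10

/-- Q1 for all `N` with neighbourhoods that grow with `N`. -/
theorem dominance (h : ∀ N, 3 ≤ N → N ≤ 9 → Q1 N) : ∃ c : ℝ, 0 < c ∧ ∀ N : ℕ, 3 ≤ N →
    ∀ m : Fin N → ℝ, (∀ j, 0 < m j) →
      (∀ j, N * m j < (1 + c * (N : ℝ) ^ ((1 : ℝ) / 3)) * ∑ k, m k) →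
      ∀ (ω : ℝ) (q : Fin N → ℂ), IsRelEq m ω q → ¬ SpectrallyStable m ω q := by
  obtain ⟨δ, hδ, hu⟩ := Unif.unif h
  refine ⟨min (δ / 534) (1 / 534), lt_min (by positivity) (by norm_num), ?_⟩
  intro N hN m hm hb ω q hrel hst
  set c : ℝ := min (δ / 534) (1 / 534) with hc
  have hc1 : c ≤ δ / 534 := min_le_left _ _
  have hc2 : c ≤ 1 / 534 := min_le_right _ _
  set u : ℝ := (N : ℝ) ^ ((1 : ℝ) / 3) with hud
  have hN0 : (0 : ℝ) < N := by
    have : (3 : ℝ) ≤ N := by exact_mod_cast hN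
    linarith
  have hu0 : 0 < u := Real.rpow_pos_of_pos hN0 _
  have : Nonempty (Fin N) := ⟨⟨0, by omega⟩⟩
  have hS : 0 < ∑ k, m k := Finset.sum_pos (fun k _ => hm k) Finset.univ_nonempty
  rcases le_or_gt u 534 with h1 | h1
  · refine hu N hN m hm (fun j => (hb j).trans_le ?_) ω q hrel hst
    refine mul_le_mul_of_nonneg_right ?_ hS.le
    have h2 : c * u ≤ δ / 534 * 534 := mul_le_mul hc1 h1 hu0.le (by positivity)
    linarith
  · obtain ⟨i, hi⟩ := Finite.exists_max m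
    have h2 := growth (by omega) hm hrel hst (m i) hi
    have h3 := hb i
    have h4 : c * u ≤ 1 / 534 * u := mul_le_mul_of_nonneg_right hc2 hu0.le
    have h5 : (1 + c * u) * ∑ k, m k ≤ (1 + 1 / 534 * u) * ∑ k, m k :=
      mul_le_mul_of_nonneg_right (by linarith) hS.le
    have h6 : u * ∑ k, m k < (267 + u / 2) * ∑ k, m k := by nlinarith
    have h7 : u < 267 + u / 2 := lt_of_mul_lt_mul_right h6 hS.le
    linarith

end RelEqN.Small.Growth
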