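import Pool.Agent.Lib.MP_b9e19b_mp.Small.Defs

set_option autoImplicit false

/-!
# Moeckel's question Q1 for few bodies: the statements of the work packages

Every statement is a `def Stmt… : Prop`; the module named in its docstring proves it.
-/

open Module

namespace RelEqN.Small.Spec

/-! ### P. From spectral stability to the necessary conditions `Nec` -/

/-- (P1, module Small/P/RootsSq.lean) The eigenvalues of `M²` are the squares of the eigenvalues
of `M`, with multiplicity.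
Proof. For every `x`: `det (x² - M²) = det (x - M) * det (x + M)
= ∏ (x - z) * ∏ (x + z) = ∏ (x² - z²)` (the sign `(-1)^n` in `det (x + M)` cancels). Every complex
number is a square, hence the monic polynomials `charpoly (M²)` and `∏ (X - z²)` agree everywhere. -/
def StmtRootsSq : Prop := ∀ (n : ℕ) (M : Matrix (Fin n) (Fin n) ℂ),
  (M * M).charpoly.roots = M.charpoly.roots.map (fun z => z ^ 2)

/-- (P2, module Small/P/Tr4.lean) Trace of the fourth power of the first-order operator.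
Proof as in `RelEqN.trace_blk_sq`: with `f = blk B J 1`,
`f² = (B, -2J; -2JB, B - 4)` and the diagonal blocks of `f⁴` are `B² + 4 J J B` and
`4 J B J + (B - 4)²`; use `trace (J B J) = trace (J J B) = - trace B`. -/
def StmtTr4 : Prop := ∀ (E : Type) [AddCommGroup E] [Module ℝ E] [FiniteDimensional ℝ E]
  (B J : E →ₗ[ℝ] E), (∀ v, J (J v) = -v) →
  LinearMap.trace ℝ (E × E) ((blk B J 1 ∘ₗ blk B J 1) ∘ₗ (blk B J 1 ∘ₗ blk B J 1))
    = 2 * (LinearMap.trace ℝ E (B ∘ₗ B) - 8 * LinearMap.trace ℝ E B + 8 * (finrank ℝ E : ℝ))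

/-- (P3, module Small/P/RootSums.lean; uses P1) Real operator with purely imaginary spectrum in
even dimension.
Proof. Let `R` be the multiset of the complex roots of the characteristic polynomial,
`card R = 2 d`. By P1 (and `Matrix.trace_eq_sum_roots_charpoly`) `∑ z² = trace f² = -2s` and
`∑ z⁴ = trace f⁴ = 2p`. Since every `z = i y` has `z² = -y²`, `z⁴ = y⁴`: `∑ y² = 2s`, `∑ y⁴ = 2p`;
so `s ≥ 0` and Cauchy-Schwarz gives `(2s)² ≤ 2d * 2p`. The characteristic polynomial is real, so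
with `z = i y ≠ 0` also `-i y` is a root (different from `z`), hence `2 y² ≤ 2 s` for every root.
Finally `∑ y⁴ ≤ s ∑ y²`, i.e. `p ≤ s²`. -/
def StmtRootSums : Prop := ∀ (V : Type) [AddCommGroup V] [Module ℝ V] [FiniteDimensional ℝ V]
  (f : V →ₗ[ℝ] V) (s p : ℝ) (d : ℕ), finrank ℝ V = 2 * d →
  (∀ z : ℂ, (f.charpoly.map (algebraMap ℝ ℂ)).IsRoot z → z.re = 0) →
  LinearMap.trace ℝ V (f ∘ₗ f) = -(2 * s) →
  LinearMap.trace ℝ V ((f ∘ₗ f) ∘ₗ (f ∘ₗ f)) = 2 * p →
  0 ≤ s ∧ s ^ 2 ≤ d * p ∧ p ≤ s ^ 2 ∧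
    ∀ ν : ℝ, (f.charpoly.map (algebraMap ℝ ℂ)).IsRoot (ν * Complex.I) → ν ^ 2 ≤ s

/-- (P4, module Small/P/PencilPos.lean) Positivity of the pencil above all frequencies.
`g` is a real inner product, `B` is symmetric, `J` is skew, `J² = -1`; every root `iν`, `ν ≥ 0`, of
the characteristic polynomial of `blk B J 1` satisfies `ν² ≤ s`.
Proof. Put `F ν (x, y) = ν²(g x x + g y y) + g x (B x) + g y (B y) + 4 ν g x (J y)`.
For large `ν` the form is positive definite. Let `ν₀ ≥ 0` with `ν₀² > s` and assume that `F ν₀` has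
a vector `v ≠ 0` with `F ν₀ v ≤ 0`. The set of the `ν ≥ ν₀` for which `F ν` has a nonzero vector with
`F ν v ≤ 0` is closed (compactness of a unit sphere of `E × E`), nonempty and bounded; let `ν₁` be
its maximum. Then `F ν₁ ≥ 0` (limit of positive forms from the right) and `F ν₁ v = 0` for some
`v = (x, y) ≠ 0`, so `v` is a minimum, and the polar form vanishes:
`ν₁² x + B x + 2 ν₁ J y = 0` and `ν₁² y + B y - 2 ν₁ J x = 0`.
So `ξ = x + i y` satisfies `(ν₁² + B - 2 i ν₁ J) ξ = 0` in the complexification, and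
`(ξ, i ν₁ ξ)` is an eigenvector of the complexified `blk B J 1` for the eigenvalue `i ν₁` (in real
terms: with `f = blk B J 1`, `X = (x, -ν₁ y)`, `Y = (y, ν₁ x)` one has `f X = -ν₁ Y`, `f Y = ν₁ X`),
so `i ν₁` is a root of the characteristic polynomial and `ν₁² ≤ s < ν₀² ≤ ν₁²`, a contradiction. For
`ν₀² = s` use the continuity in `ν`. -/
def StmtPencilPos : Prop := ∀ (E : Type) [AddCommGroup E] [Module ℝ E] [FiniteDimensional ℝ E]
  (g : E →ₗ[ℝ] E →ₗ[ℝ] ℝ) (B J : E →ₗ[ℝ] E),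
  (∀ x y, g x y = g y x) → (∀ x, x ≠ 0 → 0 < g x x) →
  (∀ x y, g (B x) y = g x (B y)) → (∀ x y, g (J x) y = -g x (J y)) → (∀ v, J (J v) = -v) →
  ∀ s : ℝ, (∀ ν : ℝ, 0 ≤ ν →
      (((blk B J 1).charpoly.map (algebraMap ℝ ℂ)).IsRoot (ν * Complex.I)) → ν ^ 2 ≤ s) →
  ∀ ν : ℝ, 0 ≤ ν → s ≤ ν ^ 2 → ∀ x y : E,
    0 ≤ ν ^ 2 * (g x x + g y y) + g x (B x) + g y (B y) + 4 * ν * g x (J y)

/-- (P5, module Small/P/TrA2.lean) The trace of `A²` for unit masses.
Proof. `gD z h = -(1/2) |z|⁻³ h - (3/2) |z|⁻⁵ z² conj h`, hence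
`(A ξ)_j = ∑_k (1/2) w_{jk} (ξ_j - ξ_k) + (3/2) wu_{jk} conj (ξ_j - ξ_k)`. The block `A_{jk}` for `j ≠ k`
is `h ↦ -(1/2) w_{jk} h - (3/2) wu_{jk} conj h` and the block `A_{jj}` is
`h ↦ (1/2) dd_j h + (3/2) cc_j conj h`. For real-linear maps `h ↦ α h + β conj h` and
`h ↦ α' h + β' conj h` of `ℂ` the trace of the composition is `2 Re (α α' + β conj β')`. So
`trace A² = ∑_j (1/2 dd_j² + 9/2 |cc_j|²) + ∑_{j≠k} (1/2 w_{jk}² + 9/2 w_{jk}²)`
(here `|wu_{jk}| = w_{jk}` for `j ≠ k`). -/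
def StmtTrA2 : Prop := ∀ (N : ℕ) (q : Fin N → ℂ), Function.Injective q →
  LinearMap.trace ℝ _ (Amap (one N) q ∘ₗ Amap (one N) q)
    = 1 / 2 * ∑ j, dd q j ^ 2 + 9 / 2 * ∑ j, ‖cc q j‖ ^ 2 + 5 * ∑ j, ∑ k, wt q j k ^ 2

/-- (P6, module Small/P/Symm.lean) `A` is symmetric for unit masses.
Proof. `ip (A x) y = ∑_j ∑_k ⟨gD (q_k - q_j) (x_k - x_j), y_j⟩`; `gD z` is a symmetric real matrix
with `gD (-z) = gD z`, so after symmetrising in `(j, k)` this is
`-(1/2) ∑_j ∑_k ⟨gD (q_k - q_j) (x_k - x_j), y_k - y_j⟩`, symmetric in `x, y`. -/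
def StmtSymm : Prop := ∀ (N : ℕ) (q x y : Fin N → ℂ),
  ip (Amap (one N) q x) y = ip x (Amap (one N) q y)

/-- (P7, module Small/P/Conv.lean) The form of the pencil in the coordinates `(a, b)`.
Proof. With `x = (a + conj b)/√2`, `y = (-i a + i conj b)/√2`: `ip x x + ip y y = ‖a‖² + ‖b‖²`,
`ip x (J y) = (‖a‖² - ‖b‖²)/2`, and with
`ip x (A x) = ∑_{j,k} (1/4) w_{jk} |x_j - x_k|² + (3/4) Re (wu_{jk} conj (x_j - x_k)²)` one gets
`ip x (A x) + ip y (A y) = (1/4) ∑ w (|a_j - a_k|² + |b_j - b_k|²)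
+ (3/2) Re ∑ wu_{jk} conj (a_j - a_k) (b_j - b_k)`. (Checked numerically.) -/
def StmtConv : Prop := ∀ (N : ℕ) (q : Fin N → ℂ) (ν : ℝ) (a b : Fin N → ℂ),
  Hf q ν a b = Rf q ν (fun j => ((1 / Real.sqrt 2 : ℝ) : ℂ) * (a j + star (b j)))
      (fun j => ((1 / Real.sqrt 2 : ℝ) : ℂ) * (-Complex.I * a j + Complex.I * star (b j))) ∧
    ip (fun j => ((1 / Real.sqrt 2 : ℝ) : ℂ) * (a j + star (b j)))
        (fun j => ((1 / Real.sqrt 2 : ℝ) : ℂ) * (a j + star (b j))) +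
      ip (fun j => ((1 / Real.sqrt 2 : ℝ) : ℂ) * (-Complex.I * a j + Complex.I * star (b j)))
        (fun j => ((1 / Real.sqrt 2 : ℝ) : ℂ) * (-Complex.I * a j + Complex.I * star (b j)))
      = ∑ j, ‖a j‖ ^ 2 + ∑ j, ‖b j‖ ^ 2

/-- The nontrivial subspace: `{x | ∑ x_j = 0 and ∑ conj(q_j) x_j = 0}`. -/
def Wsub {N : ℕ} (q : Fin N → ℂ) : Submodule ℝ (Fin N → ℂ) where
  carrier := {x | ∑ j, x j = 0 ∧ ∑ j, star (q j) * x j = 0}
  add_mem' := by
    rintro x y ⟨h1, h2⟩ ⟨h3, h4⟩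
    constructor
    · simp [Finset.sum_add_distrib, h1, h3]
    · simp only [Pi.add_apply, mul_add, Finset.sum_add_distrib, h2, h4, add_zero]
  zero_mem' := by simp
  smul_mem' := by
    rintro c x ⟨h1, h2⟩
    constructor
    · simp only [Pi.smul_apply, ← Finset.smul_sum, h1, smul_zero]
    · simp only [Pi.smul_apply, mul_smul_comm, ← Finset.smul_sum, h2, smul_zero]

/-- (P8, module Small/P/Split.lean; uses P6) The splitting `ℂ^N = V₀ ⊕ W`, `V₀ = range (emb q)`.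
`W` is invariant under `J` and under `B = A + 1` (use the symmetry P6 of `A` and
`Amap_emb`: `B 1 = 1`, `B i = i`, `B q = 3 q`, `B (i q) = 0`), it has real dimension `2N - 4`, and
`e : (Fin 2 → ℂ) × W ≃ ℂ^N`, `(u, w) ↦ emb q u + w` is bijective because
`∑ q_j = 0` (`com_zero`) and `∑ |q_j|² > 0`. So `trace B_W = trace B - 5` and
`trace B_W² = trace B² - 11` (`trace_B0` and `B0²`: `1 + 1 + 9 = 11`), with
`trace B = T + 2N` and `trace B² = trace A² + 2 T + 2N` (`trace_Amap`: `trace A = T`). -/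
def StmtSplit : Prop := ∀ (N : ℕ), 3 ≤ N → ∀ q : Fin N → ℂ, IsRelEq (one N) 1 q →
  ∃ BW JW : (Wsub q) →ₗ[ℝ] (Wsub q),
    (∀ w : Wsub q, ((BW w : Wsub q) : Fin N → ℂ) = Bm q w) ∧
    (∀ w : Wsub q, ((JW w : Wsub q) : Fin N → ℂ) = Jmap N w) ∧
    finrank ℝ (Wsub q) = 2 * N - 4 ∧
    LinearMap.trace ℝ _ BW = T q + 2 * N - 5 ∧
    LinearMap.trace ℝ _ (BW ∘ₗ BW) = LinearMap.trace ℝ _ (Amap (one N) q ∘ₗ Amap (one N) q)
      + 2 * T q + 2 * N - 11

/-- (P9, module Small/P/SubRoots.lean) If `i` is injective and intertwines `f₀` and `f` then every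
root of the characteristic polynomial of `f₀` is a root of that of `f`.
Proof: see the proof of `RelEqN.trace_le_of_sub` (`hch`: `f.charpoly` is a product). -/
def StmtSubRoots : Prop := ∀ (E V : Type) [AddCommGroup E] [Module ℝ E] [FiniteDimensional ℝ E]
  [AddCommGroup V] [Module ℝ V] [FiniteDimensional ℝ V] (f : E →ₗ[ℝ] E) (f₀ : V →ₗ[ℝ] V)
  (i : V →ₗ[ℝ] E), Function.Injective i → (∀ v, f (i v) = i (f₀ v)) →
  ∀ z : ℂ, (f₀.charpoly.map (algebraMap ℝ ℂ)).IsRoot z → (f.charpoly.map (algebraMap ℝ ℂ)).IsRoot z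

/-- (P10, module Small/P/V0.lean) The form on the sum `V₀ ⊕ W`.
Let `q` be a relative equilibrium, `0 ≤ ν ≤ 1`, and assume `0 ≤ Rf q ν x y` for all `x, y ∈ W`. Then
`lam ν * (ip x x + ip y y) ≤ Rf q ν x y` for all `x, y`.
Proof. Write `x = x₀ + x₁`, `y = y₀ + y₁` along `V₀ ⊕ W`. The spaces are orthogonal for `ip` and
invariant under `B` and `J`, so `Rf q ν x y = Rf q ν x₀ y₀ + Rf q ν x₁ y₁`. On `W` the form is
`≥ 0 ≥ lam ν * (…)` because `lam ν ≤ 0` for `0 ≤ ν ≤ 1`. On `V₀`, `x₀ = c + e q`, `y₀ = c' + e' q`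
with complex numbers; the vectors `1` and `q` are orthogonal (`∑ q_j = 0`), so with `I = ∑ |q_j|²`
`Rf = N [(ν² + 1)(|c|² + |c'|²) + 4 ν Re (conj c * i c')]
+ I [ν² (|e|² + |e'|²) + 3 (Re e)² + 3 (Re e')² + 4 ν Re (conj e * i e')]`.
The first bracket is `≥ (1 - ν)² (|c|² + |c'|²)` and `(1 - ν)² ≥ lam ν`. In the second
`Re (conj e * i e') = Im e * Re e' - Re e * Im e'`, so it splits in two binary quadratic forms
`(ν² + 3) s² + ν² t² ± 4 ν s t`, each `≥ lam ν (s² + t²)` because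
`(ν² + 3 - l)(ν² - l) = 4 ν²` for `l = lam ν`. -/
def StmtV0 : Prop := ∀ (N : ℕ), 3 ≤ N → ∀ q : Fin N → ℂ, IsRelEq (one N) 1 q →
  ∀ ν : ℝ, 0 ≤ ν → ν ≤ 1 → (∀ x ∈ Wsub q, ∀ y ∈ Wsub q, 0 ≤ Rf q ν x y) →
  ∀ x y : Fin N → ℂ, lam ν * (ip x x + ip y y) ≤ Rf q ν x y

/-- (P11, module Small/P/Nec.lean; uses P2 - P10) Spectral stability implies the necessary
conditions. Take `E = W = Wsub q`, `g = ip` restricted to `W`, `B = BW`, `J = JW` of P8,
`s = sS q`, `p = p4 q`, `d = 2N - 4`. By P9 (with `i (x, y) = (x, y)`) and `linearization_eq`, the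
operator `blk BW JW 1` has purely imaginary spectrum; `trace_blk_sq`, P2, P5, P8 give
`trace f² = -2 s` and `trace f⁴ = 2 p`; P3 gives `tr`, `lo`, `hi` (recall `T ≤ 2N - 3` is `0 ≤ s`)
and P4, P10, P7 give `pos`. The equation `CC` is `IsRelEq.eqn` with `ω = 1`. -/
def StmtNec : Prop := ∀ (N : ℕ), 3 ≤ N → ∀ q : Fin N → ℂ,
  IsRelEq (one N) 1 q → SpectrallyStable (one N) 1 q → Nec q

/-! ### R. Normalisation and compactness -/

/-- (R1, module Small/R/Omega.lean) Normalisation of the angular velocity.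
Take `q' = |ω|^(2/3) q`. Then `accel m q' = |ω|^(-4/3) accel m q = -q'` and `Amap m q' = ω⁻² Amap m q`.
To show `IsRelEq m 1 q'` differentiate `exp(i t)` twice, or use `accel_rot`.
With `D (ξ, η) = (ξ, ω⁻¹ η)` one has `D ∘ blk (A + ω²) J ω ∘ D⁻¹ = ω • blk (ω⁻² A + 1) J 1`
(this works for both signs of `ω`), so the eigenvalues are multiplied by `ω⁻¹`. -/
def StmtOmega : Prop := ∀ (N : ℕ) (m : Fin N → ℝ) (ω : ℝ) (q : Fin N → ℂ),
  IsRelEq m ω q → SpectrallyStable m ω q →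
  ∃ q' : Fin N → ℂ, IsRelEq m 1 q' ∧ SpectrallyStable m 1 q'

/-- (R2, module Small/R/Closed.lean) The set of real matrices with purely imaginary spectrum is
closed. Proof. All roots of the monic polynomial `p_M = charpoly M` (degree `n`) have real part `0` if
and only if `|Re z|^n ≤ |p_M(z)|` for every `z ∈ ℂ` (`p_M(z) = ∏ (z - z_i)`, `|z - z_i| ≥ |Re z|`), and
`M ↦ p_M(z) = det (z - M)` is continuous. -/
def StmtClosed : Prop := ∀ (n : ℕ),
  IsClosed {M : Matrix (Fin n) (Fin n) ℝ |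
    ∀ z : ℂ, (M.charpoly.map (algebraMap ℝ ℂ)).IsRoot z → z.re = 0}

/-- (R3, module Small/R/Compact.lean; uses R1, R2) Compactness.
Proof. Let `c > 0`, `box = {m | c/2 ≤ m_j ≤ 2c}`. If `m ∈ box` and `q` is a spectrally stable relative
equilibrium with `ω = 1` then `trace_ineq` gives `m_k / r_{jk}³ ≤ 2N - 3`, so `r_{jk} ≥ δ(c, N) > 0`, and
`|q_j| = |accel m q j| ≤ N * 2c / δ² = R` (`IsRelEq.eqn`). So `(m, q)` lies in the compact set
`S = {(m, q) | m ∈ box, |q_j| ≤ R, |q_j - q_k| ≥ δ (j ≠ k), accel m q j = -q_j, blk (Amap m q + 1) J 1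
has purely imaginary spectrum}` (closed by R2: the matrix of `blk (Amap m q + 1) J 1` in a fixed
basis depends continuously on `(m, q)` on this set). The projection `K_c` of `S` to the masses is
compact; it does not contain `(c, …, c)`: a stable relative equilibrium with masses `(c, …, c)`
and `ω = 1` would give one with unit masses (`q' = c^(-1/3) q`: `accel one q' = -q'`,
`Amap one q' = Amap (c, …, c) q`), against `NoStable N`. So `U_c = {m | c/2 < m_j < 2c} \ K_c` is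
an open set that contains `(c, …, c)`; by R1 no relative equilibrium with masses in `U_c` is
stable. Take the union of the `U_c`. -/
def StmtCompact : Prop := ∀ N : ℕ, 2 ≤ N → NoStable N → Q1 N

/-- (R4, module Small/R/Ten.lean) `N ≥ 10`: rephrase `RelEqN.main_ineq` exactly as in
`Pool/Agent/Results/MP_b9e19b_mp/TenOrMore.lean`. -/
def StmtTen : Prop := ∀ N : ℕ, 10 ≤ N → Q1 N

/-! ### N. The cases -/

/-- (N3, module Small/N3/Main.lean) Three bodies.
Proof. Let `w₁₂, w₁₃, w₂₃` be the weights. From `∑_k w_{jk} (q_j - q_k) = q_j` and `∑ q_j = 0`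
(sum the equations) we get `q_j = (1/3) ∑_k (q_j - q_k)`, so
`(w₁₂ - 1/3)(q₁ - q₂) + (w₁₃ - 1/3)(q₁ - q₃) = 0` and its two analogues. If `q₁ - q₂` and `q₁ - q₃`
are linearly independent over `ℝ`, all `w = 1/3`, and then `p4 = -7/2`
(`T = 2`, `∑ dd² = 4/3`, `∑ |cc|² = 1/3`, `∑∑ w² = 2/3`), which contradicts `lo` (`sS = 1`).
If they are dependent, the points are collinear: after renumbering `q₂` is between `q₁` and `q₃`,
`a = |q₁ - q₂|`, `b = |q₂ - q₃|`; the equations give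
`a = 2/a² - 1/b² + 1/(a+b)²`, `b = 2/b² - 1/a² + 1/(a+b)²`, so `a - b = 3 (1/a² - 1/b²)`, `a = b`,
`a³ = 5/4`, and `T = 2 (4/5 + 4/5 + 1/10) = 17/5 > 3`. -/
def StmtN3 : Prop := NoNec 3

/-- (F, module Small/Final.lean; uses P11, R1, R3, R4) The final assembly. -/
def StmtFinal : Prop := (∀ N, 3 ≤ N → N ≤ 9 → NoNec N) → ∀ N, 3 ≤ N → Q1 N

end RelEqN.Small.Spec
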